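import Pool.Agent.W528.HC.Stm

/-!
# Task HC-AR: the arithmetic of the exponents
-/

set_option autoImplicit false

namespace Pool.Agent.W334.HC.AR

open Finset Pool.Agent.W528.HC

/-- the choice of the multiplier -/
theorem choice (p r : ℕ) (hp : p.Prime) (hr : 0 < r) (hco : r.Coprime p) (j s : ℕ) (hj : 0 < j)
    (hjp : j < p) : ∃ j' d : ℕ, j'.Coprime (p * r) ∧ d ∣ r ∧ j' * j % p = 1 ∧
      j' * s % r = d % r := by
  have : NeZero r := ⟨hr.ne'⟩
  have hjc : j.Coprime p := by
    rw [Nat.coprime_comm, hp.coprime_iff_not_dvd]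
    exact fun h => absurd (Nat.le_of_dvd hj h) (by omega)
  obtain ⟨jp, _, hjp1⟩ := Nat.exists_mul_mod_eq_one_of_coprime hjc hp.one_lt
  obtain ⟨d, hd, u, hu, hsu⟩ := ZMod.eq_unit_mul_divisor (s : ZMod r)
  obtain ⟨u', rfl⟩ := hu
  obtain ⟨k, hk1, hk2⟩ := Nat.chineseRemainder hco (((u'⁻¹ : (ZMod r)ˣ) : ZMod r).val) jp
  have hkr : (k : ZMod r) = ((u'⁻¹ : (ZMod r)ˣ) : ZMod r) := by
    rw [(ZMod.natCast_eq_natCast_iff _ _ _).2 hk1, ZMod.natCast_zmod_val]
  have h1 : k * j % p = 1 := by
    have : k * j ≡ jp * j [MOD p] := hk2.mul_right j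
    have h2 : k * j % p = jp * j % p := this
    rw [h2, mul_comm]
    exact hjp1
  refine ⟨k, d, ?_, hd, h1, ?_⟩
  · apply Nat.Coprime.mul_right
    · rw [Nat.coprime_comm, hp.coprime_iff_not_dvd]
      intro h
      have : k * j % p = 0 := Nat.mod_eq_zero_of_dvd (h.mul_right j)
      omega
    · rw [← ZMod.isUnit_iff_coprime, hkr]
      exact (u'⁻¹).isUnit
  · rw [← ZMod.natCast_eq_natCast_iff']
    push_cast
    rw [hkr, hsu, ← mul_assoc, Units.inv_mul, one_mul]

theorem dvd_total (N A : ℕ) (hN : 0 < N) : N ∣ A + (N - A % N) % N := by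
  apply (Nat.dvd_iff_mod_eq_zero).2
  rw [Nat.add_mod_mod]
  have h1 : A % N < N := Nat.mod_lt _ hN
  have h2 : A + (N - A % N) = N * (A / N + 1) := by
    have := Nat.div_add_mod A N
    rw [mul_add, mul_one]
    omega
  rw [h2, Nat.mul_mod_right]

theorem main : Pool.Agent.W528.HC.AR := by
  intro p r c f hp hr hco hc hcr hpc hf m a ha h2a hm j s hj hjp hs
  have hN : 0 < p * r := Nat.mul_pos hp.pos hr
  have hsum : ∀ F : Fin m ⊕ Fin 2 → ℕ, ∑ i, F i = (∑ i, F (Sum.inl i)) + (F (Sum.inr 0) + F (Sum.inr 1)) := by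
    intro F
    rw [Fintype.sum_sum_type, Fin.sum_univ_two]
  have e0 : expo p r a j s (Sum.inr 0) = p * s := by simp [expo]
  have e1 : expo p r a j s (Sum.inr 1) =
      (p * r - ((∑ i, r * (j * a i % p)) + p * s) % (p * r)) % (p * r) := by simp [expo]
  have el : ∀ i, expo p r a j s (Sum.inl i) = r * (j * a i % p) := fun i => rfl
  have hai : ∀ i, a i < p := by
    intro i
    have : a i ≤ ∑ i, a i := Finset.single_le_sum (f := a) (fun _ _ => Nat.zero_le _) (Finset.mem_univ i)
    omega
  have hlt : ∀ i, expo p r a j s i < p * r := by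
    rintro (i | k)
    · rw [el, mul_comm p r]
      exact Nat.mul_lt_mul_of_pos_left (Nat.mod_lt _ hp.pos) hr
    · rcases Fin.exists_fin_two.1 ⟨k, rfl⟩ with h | h
      · rw [h, e0]
        exact Nat.mul_lt_mul_of_pos_left hs hp.pos
      · rw [h, e1]
        exact Nat.mod_lt _ hN
  have htot : p * r ∣ ∑ i, expo p r a j s i := by
    rw [hsum, e0, e1, ← add_assoc]
    simp only [el]
    exact dvd_total _ _ hN
  refine ⟨hlt, ?_, htot, ?_⟩
  · rw [e1]
    set A := (∑ i, r * (j * a i % p)) + p * s with hA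
    have h1 : A % (p * r) ≠ 0 := by
      intro h0
      have h2 : p ∣ A := (dvd_mul_right p r).trans (Nat.dvd_of_mod_eq_zero h0)
      have h3 : p ∣ ∑ i, r * (j * a i % p) := (Nat.dvd_add_left (dvd_mul_right p s)).1 h2
      rw [← Finset.mul_sum] at h3
      have h4 : p ∣ ∑ i, (j * a i % p) := hco.symm.dvd_of_dvd_mul_left h3
      have h5 : p ∣ ∑ i, j * a i := by
        apply Nat.dvd_of_mod_eq_zero
        rw [Finset.sum_nat_mod]
        exact Nat.mod_eq_zero_of_dvd h4
      rw [← Finset.mul_sum] at h5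
      rcases hp.dvd_mul.1 h5 with h6 | h6
      · exact absurd (Nat.le_of_dvd hj h6) (by omega)
      · have h7 : 0 < ∑ i, a i := by
          have : a ⟨0, hm⟩ ≤ ∑ i, a i := Finset.single_le_sum (f := a) (fun _ _ => Nat.zero_le _) (Finset.mem_univ _)
          have := ha ⟨0, hm⟩
          omega
        exact absurd (Nat.le_of_dvd h7 h6) (by omega)
    have h2 : A % (p * r) < p * r := Nat.mod_lt _ hN
    rw [Nat.mod_eq_of_lt (by omega)]
    omega
  · obtain ⟨j', d, hj'co, hdr, hj'j, hj's⟩ := choice p r hp hr hco j s hj hjp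
    refine ⟨j', hj'co, ?_⟩
    have hcs : ∀ s0 : ℕ, c ^ s0 % p = 1 := by
      intro s0
      have h1 : c ≡ 1 [MOD p] := ((Nat.modEq_iff_dvd' hc.one_lt.le).2 hpc).symm
      have h2 := h1.pow s0
      rw [one_pow] at h2
      have h3 : c ^ s0 % p = 1 % p := h2
      rw [h3, Nat.mod_eq_of_lt hp.one_lt]
    set T : ℕ → ℕ := fun s0 => ∑ i, (j' * expo p r a j s i * c ^ s0) % (p * r) with hT
    have hTeq : ∑ i, ∑ s0 ∈ range f, (j' * expo p r a j s i * c ^ s0) % (p * r) =
        ∑ s0 ∈ range f, T s0 := Finset.sum_comm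
    rw [hTeq]
    have hdvd : ∀ s0, p * r ∣ T s0 := by
      intro s0
      apply Nat.dvd_of_mod_eq_zero
      rw [hT]
      simp only
      rw [← Finset.sum_nat_mod, ← Finset.sum_mul, ← Finset.mul_sum]
      exact Nat.mod_eq_zero_of_dvd ((htot.mul_left j').mul_right _)
    have hinl : ∀ s0 i, (j' * expo p r a j s (Sum.inl i) * c ^ s0) % (p * r) = r * a i := by
      intro s0 i
      rw [el]
      have h1 : j' * (r * (j * a i % p)) * c ^ s0 = r * (j' * (j * a i % p) * c ^ s0) := by ring
      rw [h1, mul_comm p r, Nat.mul_mod_mul_left]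
      congr 1
      have h2 : j' * (j * a i % p) * c ^ s0 ≡ a i [MOD p] := by
        have h3 : c ^ s0 ≡ 1 [MOD p] := by
          unfold Nat.ModEq
          rw [hcs, Nat.mod_eq_of_lt hp.one_lt]
        have h4 : j * a i % p ≡ j * a i [MOD p] := Nat.mod_modEq _ _
        have h5 : j' * j ≡ 1 [MOD p] := by
          unfold Nat.ModEq
          rw [hj'j, Nat.mod_eq_of_lt hp.one_lt]
        calc j' * (j * a i % p) * c ^ s0 ≡ j' * (j * a i) * 1 [MOD p] := (h4.mul_left j').mul h3
          _ = (j' * j) * a i := by ring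
          _ ≡ 1 * a i [MOD p] := h5.mul_right _
          _ = a i := one_mul _
      rw [h2, Nat.mod_eq_of_lt (hai i)]
    have hinr : ∀ s0, (j' * expo p r a j s (Sum.inr 0) * c ^ s0) % (p * r) =
        p * ((j' * s * c ^ s0) % r) := by
      intro s0
      rw [e0]
      have h1 : j' * (p * s) * c ^ s0 = p * (j' * s * c ^ s0) := by ring
      rw [h1, Nat.mul_mod_mul_left]
    have hTs : ∀ s0, T s0 < r * (∑ i, a i) + p * ((j' * s * c ^ s0) % r) + p * r := by
      intro s0
      have h1 : T s0 = (∑ i, (j' * expo p r a j s (Sum.inl i) * c ^ s0) % (p * r)) +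
          ((j' * expo p r a j s (Sum.inr 0) * c ^ s0) % (p * r) +
            (j' * expo p r a j s (Sum.inr 1) * c ^ s0) % (p * r)) := hsum _
      rw [h1, hinr]
      simp only [hinl]
      rw [← Finset.mul_sum]
      have h2 := Nat.mod_lt (j' * expo p r a j s (Sum.inr 1) * c ^ s0) hN
      omega
    have h2ra : 2 * (r * ∑ i, a i) < p * r := by
      have : r * (2 * ∑ i, a i) < r * p := Nat.mul_lt_mul_of_pos_left h2a hr
      have e : 2 * (r * ∑ i, a i) = r * (2 * ∑ i, a i) := by ring
      rw [e, mul_comm p r]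
      exact this
    have hT2 : ∀ s0, T s0 ≤ 2 * (p * r) := by
      intro s0
      obtain ⟨k, hk⟩ := hdvd s0
      have h1 := hTs s0
      have h2 : p * ((j' * s * c ^ s0) % r) < p * r :=
        Nat.mul_lt_mul_of_pos_left (Nat.mod_lt _ hr) hp.pos
      have h3 : T s0 < 3 * (p * r) := by omega
      rw [hk] at h3 ⊢
      have h4 : k < 3 := by
        by_contra h
        rw [not_lt] at h
        have := Nat.mul_le_mul_left (p * r) h
        omega
      have := Nat.mul_le_mul_left (p * r) (Nat.le_of_lt_succ h4)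
      omega
    have hT0 : T 0 ≤ p * r := by
      obtain ⟨k, hk⟩ := hdvd 0
      have h1 := hTs 0
      rw [pow_zero, mul_one, hj's] at h1
      have h2 : 2 * (p * (d % r)) ≤ p * r := by
        have h3 : 2 * (d % r) ≤ r := by
          obtain ⟨e, he⟩ := hdr
          rcases Nat.lt_or_ge e 2 with h4 | h4
          · have h5 : e = 1 := by
              rcases Nat.eq_zero_or_pos e with h6 | h6
              · rw [h6, mul_zero] at he; omega
              · omega
            rw [h5, mul_one] at he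
            rw [he, Nat.mod_self]
            omega
          · have h5 : d * 2 ≤ d * e := Nat.mul_le_mul_left d h4
            have h6 : d % r ≤ d := Nat.mod_le _ _
            omega
        calc 2 * (p * (d % r)) = p * (2 * (d % r)) := by ring
          _ ≤ p * r := Nat.mul_le_mul_left p h3
      have h3 : T 0 < 2 * (p * r) := by omega
      rw [hk] at h3 ⊢
      have h4 : k < 2 := by
        by_contra h
        rw [not_lt] at h
        have := Nat.mul_le_mul_left (p * r) h
        omega
      have := Nat.mul_le_mul_left (p * r) (Nat.le_of_lt_succ h4)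
      omega
    obtain ⟨g, rfl⟩ : ∃ g, f = g + 1 := ⟨f - 1, by omega⟩
    rw [Finset.sum_range_succ']
    have h1 : ∑ k ∈ range g, T (k + 1) ≤ ∑ _k ∈ range g, 2 * (p * r) :=
      Finset.sum_le_sum fun k _ => hT2 _
    rw [Finset.sum_const, Finset.card_range, smul_eq_mul] at h1
    have h2 : (g + 1) * (p * r) * 2 = g * (2 * (p * r)) + 2 * (p * r) := by ring
    rw [h2]
    omega

end Pool.Agent.W334.HC.AR
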